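import Pool.Agent.H77.FraD

open Pool.Agent.H77.Fra

theorem Pool.Agent.Results.MP_f5b23d_al.NotInvariant.result :
    ∃ (G H : Type) (_ : Group G) (_ : Group H), Group.FG G ∧ Group.FG H ∧
      ResTFN G ∧ ResTFN H ∧ SameLCS G H ∧ frattini G = ⊥ ∧ frattini H ≠ ⊥ :=
  main
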